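import Pool.Agent.H2.NL.Basic

/-!
# Numerically trivial correspondences: the relation of the pairings
-/

set_option autoImplicit false

open Matrix Pool.Agent.H2.NL Pool.Agent.H64.CC

namespace Pool.Agent.H10.NL

section

variable {K : Type} [Field K] {I : Type} [Fintype I] [DecidableEq I] (F : Form K I)

omit [DecidableEq I] [Fintype I] in
private theorem M4_add (t t' : List I → K) : M4 F (t + t') = M4 F t + M4 F t' := by
  ext x y
  simp only [M4, Matrix.of_apply, Matrix.add_apply, Pi.add_apply, add_mul]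

omit [DecidableEq I] [Fintype I] in
private theorem M4_smul [CharZero K] (q : ℚ) (t : List I → K) :
    M4 F (q • t) = (q : K) • M4 F t := by
  ext x y
  simp only [M4, Matrix.of_apply, Matrix.smul_apply, Pi.smul_apply, smul_eq_mul]
  rw [Rat.smul_def, mul_assoc]

private theorem mul_Sx (G : Matrix (I × I) (I × I) K) (x : I × I) (a b : I) :
    (G * Sx F) x (a, b) = G x (b, a) * ks K (F.o a) (F.o b) := by
  rw [Matrix.mul_apply, Finset.sum_eq_single (b, a)]
  · unfold Sx
    rw [Matrix.of_apply, if_pos ⟨rfl, rfl⟩, ks_comm]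
  · intro z _ hz
    unfold Sx
    rw [Matrix.of_apply, if_neg, mul_zero]
    rintro ⟨h3, h4⟩
    exact hz (Prod.ext h3 h4)
  · intro h
    exact absurd (Finset.mem_univ _) h

private theorem Sx_mul (G : Matrix (I × I) (I × I) K) (y : I × I) (a b : I) :
    (Sx F * G) (a, b) y = G (b, a) y * ks K (F.o a) (F.o b) := by
  rw [Matrix.mul_apply, Finset.sum_eq_single (b, a)]
  · unfold Sx
    rw [Matrix.of_apply, if_pos ⟨rfl, rfl⟩, mul_comm]
  · intro z _ hz
    unfold Sx
    rw [Matrix.of_apply, if_neg, zero_mul]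
    rintro ⟨h3, h4⟩
    exact hz (Prod.ext h4.symm h3.symm)
  · intro h
    exact absurd (Finset.mem_univ _) h

omit [DecidableEq I] in
private theorem str2_add (G G' : Matrix (I × I) (I × I) K) :
    str2 F (G + G') = str2 F G + str2 F G' := by
  unfold str2
  rw [← Finset.sum_add_distrib]
  exact Finset.sum_congr rfl fun x _ => by rw [Matrix.add_apply]; ring

omit [DecidableEq I] in
private theorem str2_sub (G G' : Matrix (I × I) (I × I) K) :
    str2 F (G - G') = str2 F G - str2 F G' := by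
  unfold str2
  rw [← Finset.sum_sub_distrib]
  exact Finset.sum_congr rfl fun x _ => by rw [Matrix.sub_apply]; ring

omit [DecidableEq I] in
private theorem str2_smul (c : K) (G : Matrix (I × I) (I × I) K) :
    str2 F (c • G) = c * str2 F G := by
  unfold str2
  rw [Finset.mul_sum]
  exact Finset.sum_congr rfl fun x _ => by rw [Matrix.smul_apply, smul_eq_mul]; ring

private theorem str2_cyc (G : Matrix (I × I) (I × I) K) :
    str2 F (Sx F * G) = str2 F (G * Sx F) := by
  unfold str2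
  rw [← (Equiv.prodComm I I).sum_comp]
  refine Finset.sum_congr rfl fun x _ => ?_
  obtain ⟨a, b⟩ := x
  show sg K (F.o b) * sg K (F.o a) * (Sx F * G) (b, a) (b, a) =
    sg K (F.o a) * sg K (F.o b) * (G * Sx F) (a, b) (a, b)
  rw [Sx_mul, mul_Sx, ks_comm]
  ring

/-- the sums in the invariance -/
private theorem sum_T1 (p q a : I) (f : I → K) :
    ∑ b, F.T p q a b * f b = (if a = p then F.c q * f (F.st q) else 0) +
      (if a = q then F.c p * f (F.st p) else 0) := by
  have h : ∀ q : I, ∑ b, F.η q b * f b = F.c q * f (F.st q) := by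
    intro q
    rw [Finset.sum_eq_single (F.st q)]
    · rw [Form.η, Matrix.of_apply, if_pos rfl]
    · intro b _ hb
      rw [Form.η, Matrix.of_apply, if_neg hb, zero_mul]
    · intro h
      exact absurd (Finset.mem_univ _) h
  have h1 : ∀ b, F.T p q a b * f b = (if a = p then F.η q b * f b else 0) +
      (if a = q then F.η p b * f b else 0) := by
    intro b
    rw [Form.T, Matrix.of_apply]
    by_cases h2 : a = p <;> by_cases h3 : a = q <;> simp [h2, h3, add_mul]
  rw [Finset.sum_congr rfl fun b _ => h1 b, Finset.sum_add_distrib]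
  congr 1
  · by_cases h2 : a = p
    · simp only [if_pos h2]; exact h q
    · simp only [if_neg h2]; exact Finset.sum_const_zero
  · by_cases h2 : a = q
    · simp only [if_pos h2]; exact h p
    · simp only [if_neg h2]; exact Finset.sum_const_zero

end

theorem pf_STR (hHZR : T_HZR) (hMCC : T_MCC) (hHTE : T_HTE) (hNNN : T_NNN) (hKEY : T_KEY)
    (hMUL : T_MUL) (hUNI : T_UNI) : T_STR := by
  intro K _ _ V P _ _ _ _ F A hS k x y hk hx hy hsx hsy
  obtain ⟨hm1, hm2⟩ := hMCC K (V ⊕ P) F A hS.calculus k x y hk hx hy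
  obtain ⟨hN1, hN2, hN3, hN4⟩ := hNNN K (V ⊕ P) F (2 * k) x y (by omega)
  obtain ⟨t, ht, hi, hii, hiii⟩ := hHTE K (V ⊕ P) F A hS.calculus (C1 F (2 * k) x y)
    (C2 F (2 * k) x y) (2 * k - 1) hm1 hm2 (hN4 hsx) hN2
  obtain ⟨⟨t1, ht1, h1⟩, ⟨ts, hts, hs⟩, hss⟩ := hUNI K (V ⊕ P) F A hS.calculus
  have hm : (((2 * k - 1 : ℚ)) : K) = 2 * k - 1 := by push_cast; ring
  rw [hm] at hi hii hiii
  -- the columns of the vanishing part
  have hcol : ∀ z (p q : V), M4 F t z (Sum.inl p, Sum.inl q) +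
      M4 F t z (Sum.inl q, Sum.inl p) = 0 := by
    intro z p q
    rw [hi z (Sum.inl p) (Sum.inl q) (hS.o_V p) (hS.o_V q)]
    have h2 := hHZR K V P F A hS k x y hk hx hsx hsy p q z.1 z.2
    rw [sum_T1 F (Sum.inl p) (Sum.inl q) z.1 (fun b => C1 F (2 * k) x y b z.2)] at h2
    have h3 : ∀ e, ∑ b, F.c e * F.T (Sum.inl p) (Sum.inl q) e b *
        C2 F (2 * k) x y z.1 b (F.st e) z.2 =
        (if e = Sum.inl p then F.c e * (F.c (Sum.inl q) *
          C2 F (2 * k) x y z.1 (F.st (Sum.inl q)) (F.st e) z.2) else 0) +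
        (if e = Sum.inl q then F.c e * (F.c (Sum.inl p) *
          C2 F (2 * k) x y z.1 (F.st (Sum.inl p)) (F.st e) z.2) else 0) := by
      intro e
      have h4 := sum_T1 F (Sum.inl p) (Sum.inl q) e
        (fun b => C2 F (2 * k) x y z.1 b (F.st e) z.2)
      have h5 : ∑ b, F.c e * F.T (Sum.inl p) (Sum.inl q) e b *
          C2 F (2 * k) x y z.1 b (F.st e) z.2 =
          F.c e * ∑ b, F.T (Sum.inl p) (Sum.inl q) e b *
            C2 F (2 * k) x y z.1 b (F.st e) z.2 := by
        rw [Finset.mul_sum]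
        exact Finset.sum_congr rfl fun b _ => by ring
      rw [h5, h4, mul_add]
      congr 1
      · by_cases h6 : e = Sum.inl p
        · rw [if_pos h6, if_pos h6]
        · rw [if_neg h6, if_neg h6, mul_zero]
      · by_cases h6 : e = Sum.inl q
        · rw [if_pos h6, if_pos h6]
        · rw [if_neg h6, if_neg h6, mul_zero]
    rw [Finset.sum_congr rfl fun e _ => h3 e, Finset.sum_add_distrib, Finset.sum_ite_eq',
      Finset.sum_ite_eq', if_pos (Finset.mem_univ _), if_pos (Finset.mem_univ _)] at h2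
    refine Eq.trans ?_ h2
    ring
  -- the antisymmetrization
  have hG : ∃ t' ∈ A 2, M4 F t' =
      ((1 / 4 : ℚ) : K) • ((1 - Sx F) * M4 F t * (1 - Sx F)) := by
    have e1 : M4 F (t1 + (-1 : ℚ) • ts) = 1 - Sx F := by
      rw [M4_add, M4_smul, h1, hs]
      push_cast
      rw [neg_one_smul, sub_eq_add_neg]
    have m1 : t1 + (-1 : ℚ) • ts ∈ A 2 := (A 2).add_mem ht1 ((A 2).smul_mem _ hts)
    obtain ⟨t2, ht2, h2⟩ := hMUL K (V ⊕ P) F A hS.calculus _ m1 t ht
    obtain ⟨t3, ht3, h3⟩ := hMUL K (V ⊕ P) F A hS.calculus t2 ht2 _ m1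
    refine ⟨(1 / 4 : ℚ) • t3, (A 2).smul_mem _ ht3, ?_⟩
    rw [M4_smul, h3, h2, e1]
  obtain ⟨t', ht', hg⟩ := hG
  have q1 : (1 - Sx F) * Sx F = -(1 - Sx F) := by
    rw [sub_mul, one_mul, hss]
    abel
  have q2 : Sx F * (1 - Sx F) = -(1 - Sx F) := by
    rw [mul_sub, mul_one, hss]
    abel
  have k1 : M4 F t' * Sx F = -M4 F t' := by
    rw [hg, Matrix.smul_mul, Matrix.mul_assoc, q1, Matrix.mul_neg, smul_neg]
  have k2 : Sx F * M4 F t' = -M4 F t' := by
    rw [hg, Matrix.mul_smul, ← Matrix.mul_assoc, ← Matrix.mul_assoc, q2, Matrix.neg_mul,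
      Matrix.neg_mul, smul_neg]
  have k3 : ∀ z (p q : V), M4 F t' z (Sum.inl p, Sum.inl q) = 0 := by
    intro z p q
    have e1 : ∀ w, (M4 F t * (1 - Sx F)) w (Sum.inl p, Sum.inl q) = 0 := by
      intro w
      rw [Matrix.mul_sub, Matrix.mul_one, Matrix.sub_apply, mul_Sx, hS.o_V p, hS.o_V q,
        ks_self, sg_true]
      have := hcol w p q
      linear_combination this
    rw [hg, Matrix.smul_apply, Matrix.mul_assoc, Matrix.mul_apply]
    rw [Finset.sum_eq_zero fun w _ => by rw [e1 w, mul_zero], smul_zero]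
  have hkey := hKEY K V P F A hS t' ht' k1 k2 k3
  have e2 : str2 F (M4 F t') = ((1 / 4 : ℚ) : K) *
      (2 * str2 F (M4 F t) - 2 * str2 F (M4 F t * Sx F)) := by
    rw [hg, str2_smul]
    have e3 : (1 - Sx F) * M4 F t * (1 - Sx F) =
        (M4 F t - M4 F t * Sx F) - (Sx F * M4 F t - Sx F * (M4 F t * Sx F)) := by
      rw [Matrix.mul_assoc, Matrix.mul_sub, Matrix.mul_one, Matrix.sub_mul, Matrix.one_mul,
        Matrix.mul_sub]
    rw [e3, str2_sub, str2_sub, str2_sub, str2_cyc, str2_cyc F (M4 F t * Sx F),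
      Matrix.mul_assoc, hss, Matrix.mul_one]
    ring
  rw [e2] at hkey
  have e4 : str2 F (M4 F t) = str2 F (M4 F t * Sx F) := by
    have h4 : ((1 / 4 : ℚ) : K) ≠ 0 := by
      rw [Ne, Rat.cast_eq_zero]
      norm_num
    have h5 := (mul_eq_zero.1 hkey).resolve_left h4
    have h6 : (2 : K) * (str2 F (M4 F t) - str2 F (M4 F t * Sx F)) = 0 := by
      linear_combination h5
    have h7 := (mul_eq_zero.1 h6).resolve_left two_ne_zero
    exact sub_eq_zero.1 h7
  rw [hii, hiii, hN1, hN3] at e4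
  linear_combination e4

end Pool.Agent.H10.NL
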